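import Mathlib

/-!
Two-state transducers which simulate a process that reads and prolongs one word.
-/

set_option autoImplicit false

namespace Pool.Agent.V8H44.TS

/-- the cells of the configurations -/
inductive Cell (d k : ℕ) : Type
  | con (c : Fin d) : Cell d k
  | mk (c : Fin d) (z : Fin k) : Cell d k
  | mv (c : Fin d) (z : Fin k) : Cell d k
  | fw : Cell d k
  | fd (c : Fin d) : Cell d k
  | bl : Cell d k
  | en : Cell d k

instance (d k : ℕ) : Finite (Cell d k) := by
  refine Finite.of_injective (β := Fin 7 × Option (Fin d) × Option (Fin k))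
    (fun x => match x with
      | .con c => (0, some c, none)
      | .mk c z => (1, some c, some z)
      | .mv c z => (2, some c, some z)
      | .fw => (3, none, none)
      | .fd c => (4, some c, none)
      | .bl => (5, none, none)
      | .en => (6, none, none)) ?_
  intro x y h
  cases x <;> cases y <;> simp_all

/-- a process: the letter to be written, whether the reading head advances, and the next state -/
structure Proc (d k : ℕ) where
  /-- the letter to be written -/
  o : Fin k → Fin d → Fin d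
  /-- the head advances -/
  adv : Fin k → Fin d → Bool
  /-- the next state -/
  nxt : Fin k → Fin d → Fin k

variable {d k : ℕ}

/-- one cell in one round: the phase is `s`, the state is `b` -/
def rule (P : Proc d k) (s : ℕ) (b : Bool) : Cell d k → Bool × Cell d k
  | .con c => if h : d < s ∧ s - d - 1 < k then
      (false, if b then .mv c ⟨s - d - 1, h.2⟩ else .con c) else (b, .con c)
  | .mk c z => if s < d then (decide ((P.o z c : ℕ) = s), .mk c z)
      else if d + 1 + (P.nxt z c : ℕ) = s then
        (if P.adv z c then (true, .con c) else (false, .mv c (P.nxt z c)))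
      else (false, .mk c z)
  | .mv c z => (false, if s = d + k + 1 then .mk c z else .mv c z)
  | .fw => (false, if h : s < d then (if b then .fd ⟨s, h⟩ else .fw) else .fw)
  | .fd c => if s = d then (true, .con c) else (false, .fd c)
  | .bl => (false, if s = d then (if b then .fw else .bl) else .bl)
  | .en => (false, .en)

/-- a run of a process -/
structure Run (P : Proc d k) (m0 : ℕ) (w : ℕ → Fin d) (p : ℕ → ℕ) (z : ℕ → Fin k) : Prop where
  hw : ∀ j, w (m0 + j) = P.o (z j) (w (p j))
  hp : ∀ j, p (j + 1) = if P.adv (z j) (w (p j)) then p j + 1 else p j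
  hz : ∀ j, z (j + 1) = P.nxt (z j) (w (p j))
  hlt : ∀ j, p j < m0 + j

/-- the cell at the position `r` in the configuration in the phase `s` of the step `j` -/
def cf (m0 : ℕ) (w : ℕ → Fin d) (p : ℕ → ℕ) (z : ℕ → Fin k) (j s r : ℕ) : Cell d k :=
  if s ≤ d then
    if r < m0 + j then (if r = p j then .mk (w r) (z j) else .con (w r))
    else if r = m0 + j then (if s ≤ (w r : ℕ) then .fw else .fd (w r)) else .bl
  else
    if r < m0 + j + 1 then
      if s ≤ d + 1 + (z (j + 1) : ℕ) then (if r = p j then .mk (w r) (z j) else .con (w r))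
      else (if r = p (j + 1) then .mv (w r) (z (j + 1)) else .con (w r))
    else if r = m0 + j + 1 then .fw else .bl

/-- the state before the position `r` -/
def bs (P : Proc d k) (m0 : ℕ) (w : ℕ → Fin d) (p : ℕ → ℕ) (z : ℕ → Fin k) (j s r : ℕ) : Bool :=
  if s < d then decide (s = (w (m0 + j) : ℕ) ∧ p j < r ∧ r ≤ m0 + j)
  else if s = d then decide (r = m0 + j + 1)
  else decide (s = d + 1 + (z (j + 1) : ℕ) ∧ P.adv (z j) (w (p j)) = true ∧ r = p j + 1)

section

variable {P : Proc d k} {m0 : ℕ} {w : ℕ → Fin d} {p : ℕ → ℕ} {z : ℕ → Fin k}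

theorem dec_false {q : Prop} [Decidable q] (h : ¬ q) : false = decide q := (decide_eq_false h).symm

theorem dec_true {q : Prop} [Decidable q] (h : q) : true = decide q := (decide_eq_true h).symm

section eval

variable {j s r : ℕ}

theorem cf_a (h : s ≤ d) (h2 : r < m0 + j) (h3 : r = p j) :
    cf m0 w p z j s r = .mk (w r) (z j) := by
  rw [cf, if_pos h, if_pos h2, if_pos h3]

theorem cf_b (h : s ≤ d) (h2 : r < m0 + j) (h3 : ¬ r = p j) :
    cf m0 w p z j s r = .con (w r) := by
  rw [cf, if_pos h, if_pos h2, if_neg h3]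

theorem cf_c (h : s ≤ d) (h2 : r = m0 + j) (h3 : s ≤ (w r : ℕ)) :
    cf m0 w p z j s r = .fw := by
  rw [cf, if_pos h, if_neg (by omega), if_pos h2, if_pos h3]

theorem cf_d (h : s ≤ d) (h2 : r = m0 + j) (h3 : ¬ s ≤ (w r : ℕ)) :
    cf m0 w p z j s r = .fd (w r) := by
  rw [cf, if_pos h, if_neg (by omega), if_pos h2, if_neg h3]

theorem cf_e (h : s ≤ d) (h2 : m0 + j < r) : cf m0 w p z j s r = .bl := by
  rw [cf, if_pos h, if_neg (by omega), if_neg (by omega)]

theorem cf_f (h : d < s) (h2 : r < m0 + j + 1) (h3 : s ≤ d + 1 + (z (j + 1) : ℕ))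
    (h4 : r = p j) : cf m0 w p z j s r = .mk (w r) (z j) := by
  rw [cf, if_neg (by omega), if_pos h2, if_pos h3, if_pos h4]

theorem cf_g (h : d < s) (h2 : r < m0 + j + 1) (h3 : s ≤ d + 1 + (z (j + 1) : ℕ))
    (h4 : ¬ r = p j) : cf m0 w p z j s r = .con (w r) := by
  rw [cf, if_neg (by omega), if_pos h2, if_pos h3, if_neg h4]

theorem cf_h (h : d < s) (h2 : r < m0 + j + 1) (h3 : ¬ s ≤ d + 1 + (z (j + 1) : ℕ))
    (h4 : r = p (j + 1)) : cf m0 w p z j s r = .mv (w r) (z (j + 1)) := by
  rw [cf, if_neg (by omega), if_pos h2, if_neg h3, if_pos h4]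

theorem cf_i (h : d < s) (h2 : r < m0 + j + 1) (h3 : ¬ s ≤ d + 1 + (z (j + 1) : ℕ))
    (h4 : ¬ r = p (j + 1)) : cf m0 w p z j s r = .con (w r) := by
  rw [cf, if_neg (by omega), if_pos h2, if_neg h3, if_neg h4]

theorem cf_j (h : d < s) (h2 : r = m0 + j + 1) : cf m0 w p z j s r = .fw := by
  rw [cf, if_neg (by omega), if_neg (by omega), if_pos h2]

theorem cf_k (h : d < s) (h2 : m0 + j + 1 < r) : cf m0 w p z j s r = .bl := by
  rw [cf, if_neg (by omega), if_neg (by omega), if_neg (by omega)]

theorem bs_lt (h : s < d) : bs P m0 w p z j s r =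
    decide (s = (w (m0 + j) : ℕ) ∧ p j < r ∧ r ≤ m0 + j) := by
  rw [bs, if_pos h]

theorem bs_eq : bs P m0 w p z j d r = decide (r = m0 + j + 1) := by
  rw [bs, if_neg (lt_irrefl d), if_pos rfl]

theorem bs_gt (h : d < s) : bs P m0 w p z j s r =
    decide (s = d + 1 + (z (j + 1) : ℕ) ∧ P.adv (z j) (w (p j)) = true ∧ r = p j + 1) := by
  rw [bs, if_neg (by omega), if_neg (by omega)]

end eval

/-- letter phases -/
theorem rule_lt (h : Run P m0 w p z) (j s r : ℕ) (hs : s < d) :
    rule P s (bs P m0 w p z j s r) (cf m0 w p z j s r) =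
      (bs P m0 w p z j s (r + 1), cf m0 w p z j (s + 1) r) := by
  have hw := h.hw j
  have hlt := h.hlt j
  have hwv := congrArg Fin.val hw
  have e1 : s ≤ d := hs.le
  have e2 : s + 1 ≤ d := hs
  rw [bs_lt hs, bs_lt hs]
  rcases lt_trichotomy r (m0 + j) with h2 | h2 | h2
  · by_cases h3 : r = p j
    · rw [cf_a e1 h2 h3, cf_a e2 h2 h3, rule, if_pos hs]
      refine Prod.ext ?_ rfl
      simp only
      rw [decide_eq_decide, h3, ← hw]
      omega
    · rw [cf_b e1 h2 h3, cf_b e2 h2 h3, rule, dif_neg (by omega)]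
      refine Prod.ext ?_ rfl
      simp only
      rw [decide_eq_decide]
      omega
  · rcases lt_trichotomy s (w r : ℕ) with h3 | h3 | h3
    · rw [cf_c e1 h2 h3.le, cf_c e2 h2 h3, rule, dif_pos hs]
      have h4 : decide (s = (w (m0 + j) : ℕ) ∧ p j < r ∧ r ≤ m0 + j) = false :=
        decide_eq_false (by rw [← h2]; omega)
      rw [h4]
      exact Prod.ext (dec_false (by omega)) rfl
    · rw [cf_c e1 h2 h3.le, cf_d e2 h2 (by omega), rule, dif_pos hs]
      have h4 : decide (s = (w (m0 + j) : ℕ) ∧ p j < r ∧ r ≤ m0 + j) = true :=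
        decide_eq_true (by rw [← h2]; omega)
      rw [h4]
      refine Prod.ext (dec_false (by omega)) ?_
      simp only [if_true]
      congr 1
      exact Fin.ext h3
    · rw [cf_d e1 h2 (by omega), cf_d e2 h2 (by omega), rule, if_neg (by omega)]
      exact Prod.ext (dec_false (by omega)) rfl
  · rw [cf_e e1 h2, cf_e e2 h2, rule, if_neg (by omega)]
    exact Prod.ext (dec_false (by omega)) rfl

/-- the phase in which the new letter becomes a letter of the word -/
theorem rule_eq (h : Run P m0 w p z) (j r : ℕ) :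
    rule P d (bs P m0 w p z j d r) (cf m0 w p z j d r) =
      (bs P m0 w p z j d (r + 1), cf m0 w p z j (d + 1) r) := by
  have hlt := h.hlt j
  have hwr := (w r).2
  have e1 : d ≤ d := le_rfl
  have e2 : d < d + 1 := Nat.lt_succ_self d
  have e3 : d + 1 ≤ d + 1 + (z (j + 1) : ℕ) := Nat.le_add_right _ _
  rw [bs_eq, bs_eq]
  rcases lt_trichotomy r (m0 + j) with h2 | h2 | h2
  · by_cases h3 : r = p j
    · rw [cf_a e1 h2 h3, cf_f e2 (by omega) e3 h3, rule, if_neg (lt_irrefl d), if_neg (by omega)]
      exact Prod.ext (dec_false (by omega)) rfl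
    · rw [cf_b e1 h2 h3, cf_g e2 (by omega) e3 h3, rule, dif_neg (by omega)]
      refine Prod.ext ?_ rfl
      simp only
      rw [decide_eq_decide]
      omega
  · rw [cf_d e1 h2 (by omega), cf_g e2 (by omega) e3 (by omega), rule, if_pos rfl]
    exact Prod.ext (dec_true (by omega)) rfl
  · by_cases h3 : r = m0 + j + 1
    · rw [cf_e e1 h2, cf_j e2 h3, rule, if_pos rfl, decide_eq_true h3]
      exact Prod.ext (dec_false (by omega)) rfl
    · rw [cf_e e1 h2, cf_k e2 (by omega), rule, if_pos rfl, decide_eq_false h3]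
      exact Prod.ext (dec_false (by omega)) rfl

/-- the phases in which the mark is moved -/
theorem rule_gt (h : Run P m0 w p z) (j s r : ℕ) (hs : d < s) (hs' : s < d + k + 1) :
    rule P s (bs P m0 w p z j s r) (cf m0 w p z j s r) =
      (bs P m0 w p z j s (r + 1), cf m0 w p z j (s + 1) r) := by
  have hp := h.hp j
  have hz := h.hz j
  have hlt := h.hlt j
  have hz2 := (z (j + 1)).2
  have hzv := congrArg Fin.val hz
  have e2 : d < s + 1 := by omega
  rw [bs_gt hs, bs_gt hs]
  rcases lt_trichotomy s (d + 1 + (z (j + 1) : ℕ)) with h1 | h1 | h1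
  · have hb : ∀ r', decide (s = d + 1 + (z (j + 1) : ℕ) ∧ P.adv (z j) (w (p j)) = true ∧
        r' = p j + 1) = false := fun r' => decide_eq_false (by omega)
    have e3 : s + 1 ≤ d + 1 + (z (j + 1) : ℕ) := h1
    rw [hb, hb]
    rcases lt_trichotomy r (m0 + j + 1) with h2 | h2 | h2
    · by_cases h3 : r = p j
      · rw [cf_f hs h2 h1.le h3, cf_f e2 h2 e3 h3, h3, rule, if_neg (by omega),
          if_neg (by omega)]
      · rw [cf_g hs h2 h1.le h3, cf_g e2 h2 e3 h3, rule, dif_pos (by omega)]
        rfl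
    · rw [cf_j hs h2, cf_j e2 h2, rule, dif_neg (by omega)]
    · rw [cf_k hs h2, cf_k e2 h2, rule, if_neg (by omega)]
  · have e3 : ¬ s + 1 ≤ d + 1 + (z (j + 1) : ℕ) := by omega
    rcases lt_trichotomy r (m0 + j + 1) with h2 | h2 | h2
    · by_cases h3 : r = p j
      · by_cases h4 : P.adv (z j) (w (p j)) = true
        · rw [if_pos h4] at hp
          rw [cf_f hs h2 h1.le h3, cf_i e2 h2 e3 (by omega), h3, rule, if_neg (by omega),
            if_pos (by omega), if_pos h4]
          exact Prod.ext (dec_true ⟨h1, h4, rfl⟩) rfl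
        · rw [if_neg h4] at hp
          rw [cf_f hs h2 h1.le h3, cf_h e2 h2 e3 (by omega), h3, rule, if_neg (by omega),
            if_pos (by omega), if_neg h4, hz]
          exact Prod.ext (dec_false fun h => h4 h.2.1) rfl
      · rw [cf_g hs h2 h1.le h3, rule, dif_pos (by omega)]
        by_cases h4 : P.adv (z j) (w (p j)) = true ∧ r = p j + 1
        · rw [if_pos h4.1] at hp
          rw [cf_h e2 h2 e3 (by omega), decide_eq_true ⟨h1, h4⟩]
          refine Prod.ext (dec_false (by omega)) ?_
          simp only [if_true]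
          congr 1
          apply Fin.ext
          simp only
          omega
        · have h5 : ¬ r = p (j + 1) := by
            rw [hp]
            split_ifs with h6
            · exact fun h7 => h4 ⟨h6, h7⟩
            · exact h3
          rw [cf_i e2 h2 e3 h5, decide_eq_false (fun h => h4 h.2)]
          exact Prod.ext (dec_false (by omega)) rfl
    · rw [cf_j hs h2, cf_j e2 h2, rule, dif_neg (by omega)]
      exact Prod.ext (dec_false (by omega)) rfl
    · rw [cf_k hs h2, cf_k e2 h2, rule, if_neg (by omega)]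
      exact Prod.ext (dec_false (by omega)) rfl
  · have hb : ∀ r', decide (s = d + 1 + (z (j + 1) : ℕ) ∧ P.adv (z j) (w (p j)) = true ∧
        r' = p j + 1) = false := fun r' => decide_eq_false (by omega)
    have e3 : ¬ s ≤ d + 1 + (z (j + 1) : ℕ) := by omega
    have e4 : ¬ s + 1 ≤ d + 1 + (z (j + 1) : ℕ) := by omega
    rw [hb, hb]
    rcases lt_trichotomy r (m0 + j + 1) with h2 | h2 | h2
    · by_cases h3 : r = p (j + 1)
      · rw [cf_h hs h2 e3 h3, cf_h e2 h2 e4 h3, rule, if_neg (by omega)]
      · rw [cf_i hs h2 e3 h3, cf_i e2 h2 e4 h3, rule, dif_pos (by omega)]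
        rfl
    · rw [cf_j hs h2, cf_j e2 h2, rule, dif_neg (by omega)]
    · rw [cf_k hs h2, cf_k e2 h2, rule, if_neg (by omega)]

/-- all phases but the last -/
theorem rule_cf (h : Run P m0 w p z) (j s r : ℕ) (hs : s < d + k + 1) :
    rule P s (bs P m0 w p z j s r) (cf m0 w p z j s r) =
      (bs P m0 w p z j s (r + 1), cf m0 w p z j (s + 1) r) := by
  rcases lt_trichotomy s d with h1 | h1 | h1
  · exact rule_lt h j s r h1
  · rw [h1]
    exact rule_eq h j r
  · exact rule_gt h j s r h1 hs

/-- the last phase -/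
theorem rule_last (j r : ℕ) :
    rule P (d + k + 1) (bs P m0 w p z j (d + k + 1) r) (cf m0 w p z j (d + k + 1) r) =
      (bs P m0 w p z j (d + k + 1) (r + 1), cf m0 w p z (j + 1) 0 r) := by
  have hz2 := (z (j + 1)).2
  have hs : d < d + k + 1 := by omega
  have e3 : ¬ d + k + 1 ≤ d + 1 + (z (j + 1) : ℕ) := by omega
  rw [bs_gt hs, bs_gt hs]
  have hb : ∀ r', decide (d + k + 1 = d + 1 + (z (j + 1) : ℕ) ∧ P.adv (z j) (w (p j)) = true ∧
      r' = p j + 1) = false := fun r' => decide_eq_false (by omega)
  rw [hb, hb]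
  rcases lt_trichotomy r (m0 + j + 1) with h2 | h2 | h2
  · by_cases h3 : r = p (j + 1)
    · rw [cf_h hs h2 e3 h3, cf_a (Nat.zero_le _) (by omega) h3, rule, if_pos rfl]
    · rw [cf_i hs h2 e3 h3, cf_b (Nat.zero_le _) (by omega) h3, rule, dif_neg (by omega)]
  · rw [cf_j hs h2, cf_c (Nat.zero_le _) (by omega) (Nat.zero_le _), rule, dif_neg (by omega)]
  · rw [cf_k hs h2, cf_e (Nat.zero_le _) (by omega), rule, if_neg (by omega)]

/-- the first state is `false` -/
theorem bs_zero (j s : ℕ) : bs P m0 w p z j s 0 = false := by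
  rcases lt_trichotomy s d with h | h | h
  · rw [bs_lt h]
    exact decide_eq_false fun h' => by
      have := h'.2.1
      omega
  · rw [h, bs_eq]
    exact decide_eq_false (by omega)
  · rw [bs_gt h]
    exact decide_eq_false fun h' => by
      have := h'.2.2
      omega

end

end Pool.Agent.V8H44.TS
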