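import Pool.Agent.V8H44.TS.Cell
import Pool.Agent.V8H41.DG.Word

/-!
The word generated by the two-state transducer.
-/

set_option autoImplicit false

namespace Pool.Agent.V8H44.TS

open Pool.Agent.V8H41.DG (T dl T_append dl_append)

variable {d k : ℕ}

/-- the letters of the two-state transducer -/
abbrev A (d k : ℕ) : Type := Option (Bool × Cell d k × Fin (d + k + 2))

/-- the next phase -/
def nx (s : Fin (d + k + 2)) : Fin (d + k + 2) :=
  ⟨((s : ℕ) + 1) % (d + k + 2), Nat.mod_lt _ (by omega)⟩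

/-- the last cell -/
def isEn : Cell d k → Bool
  | .en => true
  | _ => false

/-- the transitions -/
def δT (P : Proc d k) : Bool → A d k → Bool
  | _, none => false
  | b, some x => (rule P x.2.2 b x.2.1).1

/-- the outputs -/
def oT (P : Proc d k) (X : List (A d k)) : Bool → A d k → List (A d k)
  | _, none => none :: X
  | b, some x => if isEn x.2.1 = true then
      [some (false, .bl, nx x.2.2), some (false, .en, nx x.2.2)]
    else [some (false, (rule P x.2.2 b x.2.1).2, nx x.2.2)]

theorem oT_ne (P : Proc d k) (X : List (A d k)) (b : Bool) (x : A d k) : oT P X b x ≠ [] := by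
  rcases x with _ | x
  · exact List.cons_ne_nil _ _
  · by_cases h : isEn x.2.1 = true
    · simp [oT, h]
    · simp [oT, h]

theorem run_range (P : Proc d k) (X : List (A d k)) (s : Fin (d + k + 2)) (fl : Bool)
    (f g : ℕ → Cell d k) (b : ℕ → Bool) (h1 : ∀ r, rule P s (b r) (f r) = (b (r + 1), g r))
    (h2 : ∀ r, isEn (f r) = false) : ∀ n,
    T (δT P) (oT P X) (b 0) ((List.range n).map fun r => (some (fl, f r, s) : A d k)) =
      (List.range n).map (fun r => (some (false, g r, nx s) : A d k)) ∧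
    dl (δT P) (b 0) ((List.range n).map fun r => (some (fl, f r, s) : A d k)) = b n := by
  intro n
  induction n with
  | zero => exact ⟨rfl, rfl⟩
  | succ n ih =>
    obtain ⟨i1, i2⟩ := ih
    rw [List.range_succ, List.map_append, List.map_append, T_append, dl_append, i1, i2]
    have e1 : δT P (b n) (some (fl, f n, s)) = b (n + 1) := by
      show (rule P s (b n) (f n)).1 = _
      rw [h1]
    have e2 : oT P X (b n) (some (fl, f n, s)) = [some (false, g n, nx s)] := by
      unfold oT
      simp only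
      rw [h2, h1]
      simp
    constructor
    · congr 1
      show oT P X (b n) (some (fl, f n, s)) ++ [] = _
      rw [e2]
      rfl
    · show δT P (b n) (some (fl, f n, s)) = _
      exact e1

theorem isEn_cf (m0 : ℕ) (w : ℕ → Fin d) (p : ℕ → ℕ) (z : ℕ → Fin k) (j s r : ℕ) :
    isEn (cf m0 w p z j s r) = false := by
  unfold cf
  split_ifs <;> rfl

section

variable (m0 : ℕ) (w : ℕ → Fin d) (p : ℕ → ℕ) (z : ℕ → Fin k)

/-- the configuration at the time `t` -/
def XT (t : ℕ) : List (A d k) :=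
  (List.range (m0 + 1 + t)).map (fun r => (some (decide (t = 0),
    cf m0 w p z (t / (d + k + 2)) (t % (d + k + 2)) r,
    ⟨t % (d + k + 2), Nat.mod_lt _ (by omega)⟩) : A d k)) ++
  [some (decide (t = 0), .en, ⟨t % (d + k + 2), Nat.mod_lt _ (by omega)⟩)]

theorem XT_length (t : ℕ) : (XT m0 w p z t).length = m0 + 2 + t := by
  unfold XT
  rw [List.length_append, List.length_map, List.length_range]
  show m0 + 1 + t + 1 = _
  omega

end

theorem div_mod_succ (t K : ℕ) (hK : 0 < K) :
    (t % K + 1 < K ∧ (t + 1) / K = t / K ∧ (t + 1) % K = t % K + 1) ∨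
    (t % K + 1 = K ∧ (t + 1) / K = t / K + 1 ∧ (t + 1) % K = 0) := by
  obtain ⟨q, hq⟩ : ∃ q, q = t / K := ⟨_, rfl⟩
  obtain ⟨r, hr⟩ : ∃ r, r = t % K := ⟨_, rfl⟩
  have h1 := Nat.div_add_mod t K
  have h2 := Nat.mod_lt t hK
  rw [← hq, ← hr] at *
  rcases Nat.lt_or_ge (r + 1) K with h3 | h3
  · left
    have h4 : t + 1 = K * q + (r + 1) := by omega
    refine ⟨h3, ?_, ?_⟩
    · rw [h4, Nat.mul_add_div hK, Nat.div_eq_of_lt h3, Nat.add_zero]
    · rw [h4, Nat.mul_add_mod, Nat.mod_eq_of_lt h3]
  · right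
    have h4 : t + 1 = K * (q + 1) := by
      rw [Nat.mul_add]
      omega
    refine ⟨by omega, ?_, ?_⟩
    · rw [h4, Nat.mul_div_cancel_left _ hK]
    · rw [h4, Nat.mul_mod_right]

section

variable {P : Proc d k} {m0 : ℕ} {w : ℕ → Fin d} {p : ℕ → ℕ} {z : ℕ → Fin k}

theorem sweep (h : Run P m0 w p z) (X : List (A d k)) (t : ℕ) :
    T (δT P) (oT P X) false (XT m0 w p z t) = XT m0 w p z (t + 1) ∧
      dl (δT P) false (XT m0 w p z t) = false := by
  have hd : 0 < d := Fin.pos (w 0)
  have hK : 0 < d + k + 2 := by omega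
  obtain ⟨j, hj⟩ : ∃ j, j = t / (d + k + 2) := ⟨_, rfl⟩
  obtain ⟨s, hs⟩ : ∃ s, s = t % (d + k + 2) := ⟨_, rfl⟩
  have hsK : s < d + k + 2 := by
    rw [hs]
    exact Nat.mod_lt _ hK
  have ht : (d + k + 2) * j + s = t := by
    rw [hj, hs]
    exact Nat.div_add_mod t _
  have hXT : XT m0 w p z t = (List.range (m0 + 1 + t)).map (fun r => (some (decide (t = 0),
      cf m0 w p z j s r, ⟨s, hsK⟩) : A d k)) ++ [some (decide (t = 0), .en, ⟨s, hsK⟩)] := by
    subst hj hs
    rfl
  -- the next configuration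
  obtain ⟨j', s', hsK', hXT', hnx, hrule, hbl⟩ : ∃ (j' s' : ℕ) (hs' : s' < d + k + 2),
      XT m0 w p z (t + 1) = (List.range (m0 + 1 + (t + 1))).map (fun r => (some (false,
        cf m0 w p z j' s' r, ⟨s', hs'⟩) : A d k)) ++ [some (false, .en, ⟨s', hs'⟩)] ∧
      nx ⟨s, hsK⟩ = (⟨s', hs'⟩ : Fin (d + k + 2)) ∧
      (∀ r, rule P s (bs P m0 w p z j s r) (cf m0 w p z j s r) =
        (bs P m0 w p z j s (r + 1), cf m0 w p z j' s' r)) ∧
      cf m0 w p z j' s' (m0 + 1 + t) = .bl := by
    have e0 : decide (t + 1 = 0) = false := by simp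
    have hjK : j ≤ (d + k + 2) * j := Nat.le_mul_of_pos_left _ hK
    rcases div_mod_succ t (d + k + 2) hK with ⟨h1, h2, h3⟩ | ⟨h1, h2, h3⟩
    · rw [← hs] at h1 h3
      rw [← hj] at h2
      refine ⟨j, s + 1, h1, ?_, ?_, fun r => rule_cf h j s r (by omega), ?_⟩
      · unfold XT
        simp only [e0, h2, h3]
      · apply Fin.ext
        show (s + 1) % (d + k + 2) = s + 1
        exact Nat.mod_eq_of_lt h1
      · rcases Nat.lt_or_ge d (s + 1) with h5 | h5
        · exact cf_k h5 (by omega)
        · exact cf_e h5 (by omega)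
    · rw [← hs] at h1
      rw [← hj] at h2
      have h4 : s = d + k + 1 := by omega
      refine ⟨j + 1, 0, hK, ?_, ?_, fun r => ?_, ?_⟩
      · unfold XT
        simp only [e0, h2, h3]
      · apply Fin.ext
        show (s + 1) % (d + k + 2) = 0
        rw [h1, Nat.mod_self]
      · rw [h4]
        exact rule_last j r
      · exact cf_e (Nat.zero_le _) (by omega)
  obtain ⟨r1, r2⟩ := run_range P X ⟨s, hsK⟩ (decide (t = 0)) (cf m0 w p z j s)
    (cf m0 w p z j' s') (bs P m0 w p z j s) hrule (isEn_cf m0 w p z j s) (m0 + 1 + t)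
  rw [bs_zero] at r1 r2
  have e1 : oT P X (bs P m0 w p z j s (m0 + 1 + t)) (some (decide (t = 0), .en, ⟨s, hsK⟩)) =
      [some (false, .bl, nx ⟨s, hsK⟩), some (false, .en, nx ⟨s, hsK⟩)] := by
    simp [oT, isEn]
  constructor
  · rw [hXT, T_append, r1, r2, hXT', ← add_assoc, List.range_succ, List.map_append, hnx]
    show _ ++ (oT P X (bs P m0 w p z j s (m0 + 1 + t)) (some (decide (t = 0), .en, ⟨s, hsK⟩)) ++ [])
      = _
    rw [e1, hnx, List.append_nil, List.append_assoc]
    congr 1
    show _ = [some (false, cf m0 w p z j' s' (m0 + 1 + t), _)] ++ _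
    rw [hbl]
    rfl
  · rw [hXT, dl_append, r2]
    rfl

variable (m0 w p z) in
/-- the iterates -/
def G : ℕ → List (A d k)
  | 0 => [none]
  | n + 1 => G n ++ XT m0 w p z n

theorem G_step (h : Run P m0 w p z) (n : ℕ) :
    T (δT P) (oT P (XT m0 w p z 0)) false (G m0 w p z n) = G m0 w p z (n + 1) ∧
      dl (δT P) false (G m0 w p z n) = false := by
  induction n with
  | zero =>
    constructor
    · show oT P (XT m0 w p z 0) false none ++ [] = [none] ++ XT m0 w p z 0
      rw [List.append_nil]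
      rfl
    · rfl
  | succ n ih =>
    obtain ⟨i1, i2⟩ := ih
    obtain ⟨s1, s2⟩ := sweep h (XT m0 w p z 0) n
    constructor
    · show T _ _ false (G m0 w p z n ++ XT m0 w p z n) = _
      rw [T_append, i1, i2, s1]
      rfl
    · show dl _ false (G m0 w p z n ++ XT m0 w p z n) = _
      rw [dl_append, i2, s2]

theorem G_iter (h : Run P m0 w p z) (n : ℕ) :
    (fun u => T (δT P) (oT P (XT m0 w p z 0)) false u)^[n] [none] = G m0 w p z n := by
  induction n with
  | zero => rfl
  | succ n ih =>
    rw [Function.iterate_succ_apply', ih]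
    exact (G_step h n).1

theorem G_length (n : ℕ) : (G m0 w p z (n + 1)).length = (G m0 w p z n).length + (m0 + 2 + n) := by
  show (G m0 w p z n ++ XT m0 w p z n).length = _
  rw [List.length_append, XT_length]

theorem G_pos (n : ℕ) : n + 1 ≤ (G m0 w p z n).length := by
  induction n with
  | zero => exact le_rfl
  | succ n ih =>
    rw [G_length]
    omega

theorem G_le (n : ℕ) : (G m0 w p z n).length ≤ (n + 1) * (m0 + 2 + n) := by
  induction n with
  | zero =>
    show 1 ≤ _
    nlinarith
  | succ n ih =>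
    rw [G_length]
    nlinarith

theorem G_prefix {n n' : ℕ} (h : n ≤ n') : G m0 w p z n <+: G m0 w p z n' := by
  induction h with
  | refl => exact List.prefix_rfl
  | step _ ih => exact ih.trans ⟨_, rfl⟩

variable (m0 w p z) in
/-- the infinite word -/
def vv (i : ℕ) : A d k := (G m0 w p z i).getD i none

theorem vv_eq (n i : ℕ) (h : i < (G m0 w p z n).length) : (G m0 w p z n)[i] = vv m0 w p z i := by
  have h0 : i < (G m0 w p z i).length := G_pos i
  unfold vv
  rw [List.getD_eq_getElem _ _ h0]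
  rcases le_total n i with h1 | h1
  · exact (List.IsPrefix.getElem (G_prefix h1) h)
  · exact (List.IsPrefix.getElem (G_prefix h1) h0).symm

end

end Pool.Agent.V8H44.TS
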