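import Pool.Agent.V8H44.TS.Dg

/-!
The original word is a coding of the word generated by the two-state transducer.
-/

set_option autoImplicit false

namespace Pool.Agent.V8H44.TS

open Pool.Agent.V8H41.DG (T dl T_append dl_append)

variable {d k : ℕ}

/-- the letter of the original word -/
def hh : A d k → Option (Fin d)
  | some (true, .con c, _) => some c
  | some (true, .mk c _, _) => some c
  | some (false, .fd c, s) => if (s : ℕ) = d then some c else none
  | _ => none

theorem fm_nil (f : ℕ → A d k) (N : ℕ) (h : ∀ r, hh (f r) = none) :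
    ((List.range N).map f).filterMap hh = [] := by
  rw [List.filterMap_eq_nil_iff]
  intro x hx
  rw [List.mem_map] at hx
  obtain ⟨r, _, rfl⟩ := hx
  exact h r

theorem fm_one (f : ℕ → A d k) (r0 : ℕ) (c : Fin d) (h : ∀ r, r ≠ r0 → hh (f r) = none)
    (h0 : hh (f r0) = some c) : ∀ N, r0 < N → ((List.range N).map f).filterMap hh = [c] := by
  intro N
  induction N with
  | zero => intro h; omega
  | succ N ih =>
    intro hN
    rw [List.range_succ, List.map_append, List.filterMap_append]
    rcases Nat.lt_or_ge r0 N with h1 | h1
    · rw [ih h1]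
      have : hh (f N) = none := h N (by omega)
      simp [this]
    · have h2 : r0 = N := by omega
      subst h2
      have h3 : ((List.range r0).map f).filterMap hh = [] := by
        rw [List.filterMap_eq_nil_iff]
        intro x hx
        rw [List.mem_map] at hx
        obtain ⟨r, hr, rfl⟩ := hx
        exact h r (by rw [List.mem_range] at hr; omega)
      rw [h3]
      simp [h0]

section

variable {P : Proc d k} {m0 : ℕ} {w : ℕ → Fin d} {p : ℕ → ℕ} {z : ℕ → Fin k}

theorem fm_zero : (XT m0 w p z 0).filterMap hh = (List.range m0).map w := by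
  have e : XT m0 w p z 0 = (List.range (m0 + 1)).map (fun r => (some (true,
      cf m0 w p z 0 0 r, ⟨0, by omega⟩) : A d k)) ++ [some (true, .en, ⟨0, by omega⟩)] := by
    unfold XT
    simp
  rw [e, List.filterMap_append, List.range_succ, List.map_append, List.filterMap_append]
  have e1 : ((List.range m0).map (fun r => (some (true,
      cf m0 w p z 0 0 r, ⟨0, by omega⟩) : A d k))).filterMap hh = (List.range m0).map w := by
    rw [List.filterMap_map, ← List.filterMap_eq_map]
    apply List.filterMap_congr
    intro r hr
    rw [List.mem_range] at hr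
    show hh (some (true, cf m0 w p z 0 0 r, _)) = some (w r)
    by_cases h : r = p 0
    · rw [cf_a (Nat.zero_le _) hr h]
      rfl
    · rw [cf_b (Nat.zero_le _) hr h]
      rfl
  rw [e1]
  have e2 : cf m0 w p z 0 0 m0 = .fw := cf_c (Nat.zero_le _) rfl (Nat.zero_le _)
  simp [hh, e2]

theorem fm_pos (t : ℕ) (ht : 0 < t) : (XT m0 w p z t).filterMap hh =
    if t % (d + k + 2) = d then [w (m0 + t / (d + k + 2))] else [] := by
  obtain ⟨j, hj⟩ : ∃ j, j = t / (d + k + 2) := ⟨_, rfl⟩
  obtain ⟨s, hs⟩ : ∃ s, s = t % (d + k + 2) := ⟨_, rfl⟩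
  have hK : 0 < d + k + 2 := by omega
  have hsK : s < d + k + 2 := by
    rw [hs]
    exact Nat.mod_lt _ hK
  have hjt : j ≤ t := by
    rw [hj]
    exact Nat.div_le_self _ _
  have e : XT m0 w p z t = (List.range (m0 + 1 + t)).map (fun r => (some (false,
      cf m0 w p z j s r, ⟨s, hsK⟩) : A d k)) ++ [some (false, .en, ⟨s, hsK⟩)] := by
    subst hj hs
    unfold XT
    have : decide (t = 0) = false := by simp; omega
    rw [this]
  rw [e, List.filterMap_append, ← hj, ← hs]
  have e1 : ([some (false, .en, ⟨s, hsK⟩)] : List (A d k)).filterMap hh = [] := rfl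
  rw [e1, List.append_nil]
  split_ifs with h
  · refine fm_one _ (m0 + j) _ ?_ ?_ _ (by omega)
    · intro r hr
      show hh (some (false, cf m0 w p z j s r, _)) = none
      rcases lt_trichotomy r (m0 + j) with h2 | h2 | h2
      · by_cases h3 : r = p j
        · rw [cf_a h.le h2 h3]
          rfl
        · rw [cf_b h.le h2 h3]
          rfl
      · exact absurd h2 hr
      · rw [cf_e h.le h2]
        rfl
    · show hh (some (false, cf m0 w p z j s (m0 + j), _)) = _
      have := (w (m0 + j)).2
      rw [cf_d h.le rfl (by omega)]
      show (if s = d then some (w (m0 + j)) else none) = _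
      rw [if_pos h]
  · apply fm_nil
    intro r
    show hh (some (false, cf m0 w p z j s r, _)) = none
    cases hc : cf m0 w p z j s r with
    | fd c =>
      show (if s = d then some c else none) = none
      rw [if_neg h]
    | con c => rfl
    | mk c z => rfl
    | mv c z => rfl
    | fw => rfl
    | bl => rfl
    | en => rfl

/-- the number of letters of the original word -/
def mu (d k m0 n : ℕ) : ℕ :=
  m0 + n / (d + k + 2) + if n % (d + k + 2) ≤ d then 0 else 1

theorem fm_G (n : ℕ) : (G m0 w p z (n + 1)).filterMap hh =
    (List.range (mu d k m0 (n + 1))).map w := by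
  have hd : 0 < d := Fin.pos (w 0)
  have hK : 0 < d + k + 2 := by omega
  induction n with
  | zero =>
    show ([none] ++ XT m0 w p z 0).filterMap hh = _
    rw [List.filterMap_append, fm_zero]
    have h1 : mu d k m0 (0 + 1) = m0 := by
      unfold mu
      rw [Nat.div_eq_of_lt (by omega), Nat.mod_eq_of_lt (by omega), if_pos (by omega)]
      rfl
    rw [h1]
    rfl
  | succ n ih =>
    show (G m0 w p z (n + 1) ++ XT m0 w p z (n + 1)).filterMap hh = _
    have e := fm_pos (m0 := m0) (w := w) (p := p) (z := z) (n + 1) (by omega)
    rw [List.filterMap_append, ih, e]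
    unfold mu
    rcases div_mod_succ (n + 1) (d + k + 2) hK with ⟨h1, h2, h3⟩ | ⟨h1, h2, h3⟩
    · rw [h2, h3]
      rcases lt_trichotomy ((n + 1) % (d + k + 2)) d with h4 | h4 | h4
      · rw [if_pos h4.le, if_neg (by omega), if_pos (by omega), List.append_nil]
      · rw [if_pos h4.le, if_pos h4, if_neg (by omega), Nat.add_zero, List.range_succ,
          List.map_append]
        rfl
      · rw [if_neg (by omega), if_neg (by omega), if_neg (by omega), List.append_nil]
    · rw [h2, h3, if_pos (Nat.zero_le _), if_neg (by omega), if_neg (by omega), List.append_nil,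
        Nat.add_zero]
      rfl

/-- coding of the prefixes -/
theorem coding : ∃ ν : ℕ → ℕ, ∀ N,
    ((List.range N).map (vv m0 w p z)).filterMap hh = (List.range (ν N)).map w ∧
      N ≤ ((d + k + 3) * (m0 + d + k + 4)) * (ν N + 1) ^ 2 := by
  have key : ∀ N, ∃ ν, ((List.range N).map (vv m0 w p z)).filterMap hh =
      (List.range ν).map w ∧ N ≤ ((d + k + 3) * (m0 + d + k + 4)) * (ν + 1) ^ 2 := by
    intro N
    have hK : 0 < d + k + 2 := by omega
    -- prefixes of the iterates
    have hG : ∀ n, (List.range (G m0 w p z n).length).map (vv m0 w p z) = G m0 w p z n := by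
      intro n
      apply List.ext_getElem
      · simp
      · intro i h1 h2
        rw [vv_eq n i h2]
        simp
    obtain ⟨n, hn1, hn2⟩ : ∃ n, (n = 0 ∨ (G m0 w p z n).length ≤ N) ∧
        N < (G m0 w p z (n + 1)).length := by
      have hex : ∃ n, N < (G m0 w p z (n + 1)).length := ⟨N, by
        have := G_pos (m0 := m0) (w := w) (p := p) (z := z) (N + 1)
        omega⟩
      refine ⟨Nat.find hex, ?_, Nat.find_spec hex⟩
      rcases Nat.eq_zero_or_pos (Nat.find hex) with h | h
      · exact Or.inl h
      · right
        have h1 := Nat.find_min hex (m := Nat.find hex - 1) (by omega)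
        rw [Nat.sub_add_cancel h] at h1
        omega
    have hpre : (List.range N).map (vv m0 w p z) <+: G m0 w p z (n + 1) := by
      rw [← hG]
      apply List.IsPrefix.map
      refine ⟨(List.range ((G m0 w p z (n + 1)).length - N)).map (N + ·), ?_⟩
      rw [← List.range_add]
      congr 1
      omega
    have hpre2 : ((List.range N).map (vv m0 w p z)).filterMap hh <+:
        (List.range (mu d k m0 (n + 1))).map w := by
      rw [← fm_G]
      exact hpre.filterMap _
    obtain ⟨ν, hν⟩ : ∃ ν, ν = (((List.range N).map (vv m0 w p z)).filterMap hh).length := ⟨_, rfl⟩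
    have hle := hpre2.length_le
    rw [List.length_map, List.length_range, ← hν] at hle
    have heq : ((List.range N).map (vv m0 w p z)).filterMap hh = (List.range ν).map w := by
      have h1 := List.prefix_iff_eq_take.1 hpre2
      rw [h1, ← hν, ← List.map_take, List.take_range, min_eq_left hle]
    refine ⟨ν, heq, ?_⟩
    have hnν : n / (d + k + 2) ≤ ν := by
      rcases Nat.eq_zero_or_pos n with h | h
      · rw [h, Nat.zero_div]
        exact Nat.zero_le _
      · have h1 : (G m0 w p z n).length ≤ N := by
          rcases hn1 with h2 | h2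
          · omega
          · exact h2
        have h2 : G m0 w p z n <+: (List.range N).map (vv m0 w p z) := by
          rw [← hG n]
          apply List.IsPrefix.map
          refine ⟨(List.range (N - (G m0 w p z n).length)).map ((G m0 w p z n).length + ·), ?_⟩
          rw [← List.range_add]
          congr 1
          omega
        have h3 := (h2.filterMap hh).length_le
        rw [← hν] at h3
        obtain ⟨n', rfl⟩ : ∃ n', n = n' + 1 := ⟨n - 1, by omega⟩
        rw [fm_G, List.length_map, List.length_range] at h3
        unfold mu at h3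
        omega
    have h5 : n < (d + k + 2) * (ν + 1) := by
      have h6 := Nat.lt_mul_div_succ n hK
      exact h6.trans_le (Nat.mul_le_mul_left _ (by omega))
    have h6 := G_le (m0 := m0) (w := w) (p := p) (z := z) (n + 1)
    have h7 : N ≤ (n + 2) * (m0 + 3 + n) := by
      have : (n + 1 + 1) * (m0 + 2 + (n + 1)) = (n + 2) * (m0 + 3 + n) := by ring
      omega
    have h8 : n + 2 ≤ (d + k + 3) * (ν + 1) := by
      have : (d + k + 3) * (ν + 1) = (d + k + 2) * (ν + 1) + (ν + 1) := by ring
      omega
    have h9 : m0 + 3 + n ≤ (m0 + d + k + 4) * (ν + 1) := by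
      have : (m0 + d + k + 4) * (ν + 1) = (d + k + 2) * (ν + 1) + (m0 + 2) * (ν + 1) := by ring
      have : m0 + 2 ≤ (m0 + 2) * (ν + 1) := Nat.le_mul_of_pos_right _ (Nat.succ_pos _)
      omega
    calc N ≤ (n + 2) * (m0 + 3 + n) := h7
      _ ≤ ((d + k + 3) * (ν + 1)) * ((m0 + d + k + 4) * (ν + 1)) := Nat.mul_le_mul h8 h9
      _ = _ := by ring
  choose ν hν using key
  exact ⟨ν, hν⟩

end

end Pool.Agent.V8H44.TS
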