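import Pool.Agent.V8H44.TS.Ex

/-!
A word generated by iterating a transducer is written by a process.
-/

set_option autoImplicit false

namespace Pool.Agent.V8H44.TS

open Pool.Agent.V8H41.DG

variable {d p : ℕ} {δ : Fin p → Fin d → Fin p} {q0 : Fin p}
  {out : Fin p → Fin d → List (Fin d)} {a : Fin d} {w : ℕ → Fin d}

/-- prefixes -/
def W (w : ℕ → Fin d) (n : ℕ) : List (Fin d) := (List.range n).map w

theorem W_length (n : ℕ) : (W w n).length = n := by simp [W]

theorem W_succ (n : ℕ) : W w (n + 1) = W w n ++ [w n] := by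
  simp [W, List.range_succ]

theorem W_get (n i : ℕ) (h : i < (W w n).length) : (W w n)[i] = w i := by simp [W]

theorem W_prefix {n n' : ℕ} (h : n ≤ n') : W w n <+: W w n' := by
  induction h with
  | refl => exact List.prefix_rfl
  | step _ ih => exact ih.trans ⟨_, (W_succ _).symm⟩

theorem eq_W (u : List (Fin d)) (h : ∀ (i : ℕ) (hi : i < u.length), u[i] = w i) :
    u = W w u.length := by
  apply List.ext_getElem
  · rw [W_length]
  · intro i h1 h2
    rw [h i h1, W_get]

theorem prefix_W {u : List (Fin d)} {n : ℕ} (h : u <+: W w n) : u = W w u.length := by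
  apply eq_W
  intro i hi
  rw [h.getElem hi, W_get]

theorem it_eq (hw : Iterates (dgsm δ q0 out) a w) (n : ℕ) :
    (dgsm δ q0 out)^[n] [a] = W w ((dgsm δ q0 out)^[n] [a]).length :=
  eq_W _ fun i hi => hw.2.2 n i hi

theorem T_W (hw : Iterates (dgsm δ q0 out) a w) (n : ℕ) :
    T δ out q0 (W w n) = W w (T δ out q0 (W w n)).length := by
  obtain ⟨m, hm⟩ := hw.2.1 n
  have h1 : W w n <+: (dgsm δ q0 out)^[m] [a] := by
    rw [it_eq hw m]
    exact W_prefix hm
  have h2 : T δ out q0 (W w n) <+: (dgsm δ q0 out)^[m + 1] [a] := by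
    rw [Function.iterate_succ_apply', dgsm_eq]
    obtain ⟨t, ht⟩ := h1
    rw [← ht, T_append]
    exact ⟨_, rfl⟩
  rw [it_eq hw (m + 1)] at h2
  exact prefix_W h2

theorem w_zero (hw : Iterates (dgsm δ q0 out) a w) : w 0 = a := by
  have := hw.2.2 0 0 (by simp)
  simpa using this.symm

theorem T_long (hne : ∀ s x, out s x ≠ []) (hw : Iterates (dgsm δ q0 out) a w) (n : ℕ)
    (hn : 1 ≤ n) : n + 1 ≤ (T δ out q0 (W w n)).length := by
  obtain ⟨n, rfl⟩ : ∃ n', n = n' + 1 := ⟨n - 1, by omega⟩
  have h1 : W w (n + 1) = a :: (W w (n + 1)).tail := by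
    have h2 : W w (n + 1) = w 0 :: (List.range n).map (fun i => w (i + 1)) := by
      simp [W, List.range_succ_eq_map, Function.comp_def]
    rw [h2, w_zero hw]
    rfl
  rw [h1]
  show n + 1 + 1 ≤ (out q0 a ++ T δ out (δ q0 a) (W w (n + 1)).tail).length
  rw [List.length_append]
  have h3 := T_len (δ := δ) (out := out) hne (W w (n + 1)).tail (δ q0 a)
  rw [List.length_tail, W_length] at h3
  have h4 : 2 ≤ (out q0 a).length := by
    have h5 := out_eq (δ := δ) hw.1
    have h6 := tail_ne (δ := δ) hw.1 hw.2.1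
    have h7 := List.length_pos_iff.2 h6
    rw [h5, List.length_cons]
    omega
  omega

/-- the bound for the images -/
def lm (out : Fin p → Fin d → List (Fin d)) : ℕ := 1 + ∑ q, ∑ c, (out q c).length

theorem le_lm (q : Fin p) (c : Fin d) : (out q c).length < lm out := by
  have h1 : (out q c).length ≤ ∑ c, (out q c).length :=
    Finset.single_le_sum (f := fun c => (out q c).length) (fun _ _ => Nat.zero_le _)
      (Finset.mem_univ c)
  have h2 : ∑ c, (out q c).length ≤ ∑ q, ∑ c, (out q c).length :=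
    Finset.single_le_sum (f := fun q => ∑ c, (out q c).length) (fun _ _ => Nat.zero_le _)
      (Finset.mem_univ q)
  unfold lm
  omega

/-- the run of the process: position, state, index in the image -/
def tr (δ : Fin p → Fin d → Fin p) (q0 : Fin p) (out : Fin p → Fin d → List (Fin d)) (a : Fin d)
    (w : ℕ → Fin d) : ℕ → ℕ × Fin p × ℕ
  | 0 => (1, δ q0 a, 0)
  | j + 1 =>
    if (tr δ q0 out a w j).2.2 + 1 <
        (out (tr δ q0 out a w j).2.1 (w (tr δ q0 out a w j).1)).length then
      ((tr δ q0 out a w j).1, (tr δ q0 out a w j).2.1, (tr δ q0 out a w j).2.2 + 1)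
    else ((tr δ q0 out a w j).1 + 1,
      δ (tr δ q0 out a w j).2.1 (w (tr δ q0 out a w j).1), 0)

theorem tr_inv (hne : ∀ s x, out s x ≠ []) (hw : Iterates (dgsm δ q0 out) a w) (j : ℕ) :
    1 ≤ (tr δ q0 out a w j).1 ∧
    (tr δ q0 out a w j).2.1 = dl δ q0 (W w (tr δ q0 out a w j).1) ∧
    (tr δ q0 out a w j).2.2 <
      (out (tr δ q0 out a w j).2.1 (w (tr δ q0 out a w j).1)).length ∧
    (T δ out q0 (W w (tr δ q0 out a w j).1)).length + (tr δ q0 out a w j).2.2 =
      (out q0 a).length + j := by
  induction j with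
  | zero =>
    have h1 : W w 1 = [a] := by simp [W, w_zero hw]
    refine ⟨le_rfl, ?_, ?_, ?_⟩
    · show δ q0 a = dl δ q0 (W w 1)
      rw [h1]
      rfl
    · exact List.length_pos_iff.2 (hne _ _)
    · show (T δ out q0 (W w 1)).length + 0 = _
      rw [h1]
      simp [T]
  | succ j ih =>
    obtain ⟨i1, i2, i3, i4⟩ := ih
    rw [tr]
    split_ifs with h
    · refine ⟨i1, i2, h, ?_⟩
      show (T δ out q0 (W w (tr δ q0 out a w j).1)).length + ((tr δ q0 out a w j).2.2 + 1) = _
      omega
    · refine ⟨Nat.le_succ_of_le i1, ?_, List.length_pos_iff.2 (hne _ _), ?_⟩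
      · show δ (tr δ q0 out a w j).2.1 (w (tr δ q0 out a w j).1) =
          dl δ q0 (W w ((tr δ q0 out a w j).1 + 1))
        rw [W_succ, dl_append, ← i2]
        rfl
      · show (T δ out q0 (W w ((tr δ q0 out a w j).1 + 1))).length + 0 = _
        rw [W_succ, T_append, ← i2, List.length_append]
        have : T δ out (tr δ q0 out a w j).2.1 [w (tr δ q0 out a w j).1] =
            out (tr δ q0 out a w j).2.1 (w (tr δ q0 out a w j).1) := by simp [T]
        rw [this]
        omega

theorem lm_pos : 0 < lm out := by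
  unfold lm
  omega

/-- codes of the states -/
def encz (out : Fin p → Fin d → List (Fin d)) (q : Fin p) (i : ℕ) : Fin (p * lm out) :=
  finProdFinEquiv (q, ⟨i % lm out, Nat.mod_lt _ lm_pos⟩)

theorem dec_enc (q : Fin p) (i : ℕ) (h : i < lm out) :
    (finProdFinEquiv.symm (encz out q i)).1 = q ∧
      ((finProdFinEquiv.symm (encz out q i)).2 : ℕ) = i := by
  unfold encz
  rw [Equiv.symm_apply_apply]
  exact ⟨rfl, Nat.mod_eq_of_lt h⟩

/-- the process -/
def pc (δ : Fin p → Fin d → Fin p) (out : Fin p → Fin d → List (Fin d)) :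
    Proc d (p * lm out) where
  o z c := (out (finProdFinEquiv.symm z).1 c).getD (finProdFinEquiv.symm z).2 c
  adv z c := decide (¬ ((finProdFinEquiv.symm z).2 : ℕ) + 1 <
    (out (finProdFinEquiv.symm z).1 c).length)
  nxt z c := if ((finProdFinEquiv.symm z).2 : ℕ) + 1 < (out (finProdFinEquiv.symm z).1 c).length
    then encz out (finProdFinEquiv.symm z).1 (((finProdFinEquiv.symm z).2 : ℕ) + 1)
    else encz out (δ (finProdFinEquiv.symm z).1 c) 0

theorem run_pc (hne : ∀ s x, out s x ≠ []) (hw : Iterates (dgsm δ q0 out) a w) :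
    Run (pc δ out) (out q0 a).length w (fun j => (tr δ q0 out a w j).1)
      (fun j => encz out (tr δ q0 out a w j).2.1 (tr δ q0 out a w j).2.2) := by
  have hlt : ∀ j, (tr δ q0 out a w j).2.2 < lm out := fun j =>
    (tr_inv hne hw j).2.2.1.trans (le_lm _ _)
  have hd := fun j => dec_enc (out := out) (tr δ q0 out a w j).2.1 (tr δ q0 out a w j).2.2 (hlt j)
  refine ⟨fun j => ?_, fun j => ?_, fun j => ?_, fun j => ?_⟩
  · obtain ⟨i1, i2, i3, i4⟩ := tr_inv hne hw j
    show _ = (out _ (w (tr δ q0 out a w j).1)).getD _ _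
    rw [(hd j).1, (hd j).2, List.getD_eq_getElem _ _ i3]
    have h1 : T δ out q0 (W w ((tr δ q0 out a w j).1 + 1)) =
        T δ out q0 (W w (tr δ q0 out a w j).1) ++
          out (tr δ q0 out a w j).2.1 (w (tr δ q0 out a w j).1) := by
      rw [W_succ, T_append, ← i2]
      simp [T]
    have h2 := T_W hw ((tr δ q0 out a w j).1 + 1)
    have h3 : (out q0 a).length + j < (T δ out q0 (W w ((tr δ q0 out a w j).1 + 1))).length := by
      rw [h1, List.length_append]
      omega
    have h4 : (T δ out q0 (W w ((tr δ q0 out a w j).1 + 1)))[(out q0 a).length + j] =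
        w ((out q0 a).length + j) := by
      have h5 := W_get (w := w) (T δ out q0 (W w ((tr δ q0 out a w j).1 + 1))).length
        ((out q0 a).length + j) (by rw [W_length]; exact h3)
      rw [← h5]
      congr 1
    rw [← h4]
    simp only [h1]
    rw [List.getElem_append_right (by omega)]
    congr 1
    omega
  · show (tr δ q0 out a w (j + 1)).1 = if decide _ = true then _ else _
    rw [(hd j).1, (hd j).2, tr]
    by_cases h : (tr δ q0 out a w j).2.2 + 1 <
        (out (tr δ q0 out a w j).2.1 (w (tr δ q0 out a w j).1)).length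
    · rw [if_pos h]
      simp [h]
    · rw [if_neg h]
      simp [h]
  · show encz out (tr δ q0 out a w (j + 1)).2.1 (tr δ q0 out a w (j + 1)).2.2 = if _ then _ else _
    rw [(hd j).1, (hd j).2, tr]
    by_cases h : (tr δ q0 out a w j).2.2 + 1 <
        (out (tr δ q0 out a w j).2.1 (w (tr δ q0 out a w j).1)).length
    · rw [if_pos h, if_pos h]
    · rw [if_neg h, if_neg h]
  · obtain ⟨i1, i2, i3, i4⟩ := tr_inv hne hw j
    have := T_long hne hw _ i1
    show (tr δ q0 out a w j).1 < _
    omega

end Pool.Agent.V8H44.TS
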