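import Pool.Agent.V8H44.TS.Pr

/-!
Two states suffice.
-/

set_option autoImplicit false

namespace Pool.Agent.V8H44.TS

open Pool.Agent.V8H41.DG

theorem T_conj {S S' L L' : Type} (δ : S → L → S) (out : S → L → List L) (eS : S ≃ S')
    (eL : L ≃ L') (u : List L) : ∀ q : S,
    T (fun q' x => eS (δ (eS.symm q') (eL.symm x))) (fun q' x => (out (eS.symm q') (eL.symm x)).map eL)
      (eS q) (u.map eL) = (T δ out q u).map eL := by
  induction u with
  | nil => intro q; rfl
  | cons x u ih =>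
    intro q
    rw [List.map_cons, T, T, List.map_append, Equiv.symm_apply_apply, Equiv.symm_apply_apply, ih]

theorem bool_fin : ∃ e : Bool ≃ Fin 2, e false = 0 :=
  ⟨{ toFun := fun b => if b then 1 else 0
     invFun := fun i => decide (i = 1)
     left_inv := by intro b; cases b <;> rfl
     right_inv := by intro i; fin_cases i <;> rfl }, rfl⟩

/-- **Two states suffice.** -/
theorem exists_two {d p : ℕ} {δ : Fin p → Fin d → Fin p} {q0 : Fin p}
    {out : Fin p → Fin d → List (Fin d)} {a : Fin d} {w : ℕ → Fin d}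
    (hne : ∀ s x, out s x ≠ []) (hw : Iterates (dgsm δ q0 out) a w) :
    ∃ (e : ℕ) (δ' : Fin 2 → Fin e → Fin 2) (out' : Fin 2 → Fin e → List (Fin e)) (b : Fin e)
      (v : ℕ → Fin e) (h : Fin e → Option (Fin d)) (L C : ℕ),
      (∀ s x, out' s x ≠ []) ∧ Iterates (dgsm δ' 0 out') b v ∧
      (∀ n, ((dgsm δ' 0 out')^[n + 1] [b]).length = ((dgsm δ' 0 out')^[n] [b]).length + (L + n)) ∧
      ∃ ν : ℕ → ℕ, ∀ N, ((List.range N).map v).filterMap h = (List.range (ν N)).map w ∧
        N ≤ C * (ν N + 1) ^ 2 := by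
  obtain ⟨k, hk⟩ : ∃ k, k = p * lm out := ⟨_, rfl⟩
  have hR := run_pc hne hw
  obtain ⟨P, hP⟩ : ∃ P, P = pc δ out := ⟨_, rfl⟩
  rw [← hP] at hR
  obtain ⟨m0, hm0⟩ : ∃ m0, m0 = (out q0 a).length := ⟨_, rfl⟩
  rw [← hm0] at hR
  obtain ⟨pp, hpp⟩ : ∃ pp : ℕ → ℕ, pp = fun j => (tr δ q0 out a w j).1 := ⟨_, rfl⟩
  rw [← hpp] at hR
  obtain ⟨zz, hzz⟩ : ∃ zz : ℕ → Fin (p * lm out),
    zz = fun j => encz out (tr δ q0 out a w j).2.1 (tr δ q0 out a w j).2.2 := ⟨_, rfl⟩
  rw [← hzz] at hR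
  obtain ⟨E, ⟨eL⟩⟩ := Finite.exists_equiv_fin (A d (p * lm out))
  obtain ⟨eB, heB⟩ := bool_fin
  obtain ⟨X, hX⟩ : ∃ X, X = XT m0 w pp zz 0 := ⟨_, rfl⟩
  obtain ⟨δ', hδ'⟩ : ∃ δ' : Fin 2 → Fin E → Fin 2,
    δ' = fun q' x => eB (δT P (eB.symm q') (eL.symm x)) := ⟨_, rfl⟩
  obtain ⟨out', hout'⟩ : ∃ out' : Fin 2 → Fin E → List (Fin E),
    out' = fun q' x => (oT P X (eB.symm q') (eL.symm x)).map eL := ⟨_, rfl⟩
  have hT : ∀ u : List (A d (p * lm out)), dgsm δ' 0 out' (u.map eL) =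
      (T (δT P) (oT P X) false u).map eL := by
    intro u
    rw [dgsm_eq, hδ', hout', ← heB]
    exact T_conj (δT P) (oT P X) eB eL u false
  have hit : ∀ n, (dgsm δ' 0 out')^[n] [eL none] = (G m0 w pp zz n).map eL := by
    intro n
    induction n with
    | zero => rfl
    | succ n ih =>
      rw [Function.iterate_succ_apply', ih, hT, hX, (G_step hR n).1]
  obtain ⟨ν, hν⟩ := coding (m0 := m0) (w := w) (p := pp) (z := zz)
  refine ⟨E, δ', out', eL none, fun i => eL (vv m0 w pp zz i), fun x => hh (eL.symm x),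
    m0 + 2, _, ?_, ⟨?_, ?_, ?_⟩, ?_, ν, fun N => ⟨?_, (hν N).2⟩⟩
  · intro s x h
    rw [hout'] at h
    exact oT_ne _ _ _ _ (List.map_eq_nil_iff.1 h)
  · have := hit 1
    rw [Function.iterate_one] at this
    rw [this]
    show [eL none] <+: (([none] : List (A d (p * lm out))) ++ XT m0 w pp zz 0).map eL
    rw [List.map_append]
    exact ⟨_, rfl⟩
  · intro N
    refine ⟨N, ?_⟩
    rw [hit, List.length_map]
    have := G_pos (m0 := m0) (w := w) (p := pp) (z := zz) N
    omega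
  · intro n i h
    simp only [hit, List.getElem_map]
    rw [vv_eq]
  · intro n
    rw [hit, hit, List.length_map, List.length_map, G_length]
  · rw [← (hν N).1]
    rw [List.filterMap_map, List.filterMap_map]
    congr 1
    funext i
    simp

variable {d e : ℕ} {v : ℕ → Fin e} {w : ℕ → Fin d} {h : Fin e → Option (Fin d)} {C : ℕ}
  {ν : ℕ → ℕ}

/-- machines for codings -/
theorem gen_coding (hν : ∀ N, ((List.range N).map v).filterMap h = (List.range (ν N)).map w ∧
      N ≤ C * (ν N + 1) ^ 2) {s : ℕ → ℕ} (hG : Generates v s) :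
    Generates w (fun n => s (C * n ^ 2 + 1)) := by
  obtain ⟨m, k, g, δM, conf, h1, h2, h3, h4, h5⟩ := hG
  have hout : ∀ t, (conf t).2.2.2 = (List.range (conf t).2.2.2.length).map v := by
    intro t
    apply List.ext_getElem
    · simp
    · intro i hi hi'
      rw [h3 t i hi]
      simp
  have hlen : ∀ t, ((conf t).2.2.2.filterMap h) =
      (List.range (ν (conf t).2.2.2.length)).map w := by
    intro t
    conv_lhs => rw [hout t]
    exact (hν _).1
  have hlen2 : ∀ t, ((conf t).2.2.2.filterMap h).length = ν (conf t).2.2.2.length := by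
    intro t
    rw [hlen]
    simp
  refine ⟨m, k, g, fun q x => ((δM q x).1, (δM q x).2.1, (δM q x).2.2.1, (δM q x).2.2.2.bind h),
    fun t => ((conf t).1, (conf t).2.1, (conf t).2.2.1, (conf t).2.2.2.filterMap h), ?_, ?_, ?_,
    ?_, ?_⟩
  · simp only [h1]
    rfl
  · intro t
    simp only
    rw [h2 t]
    simp only [Prod.mk.injEq, true_and]
    rw [List.filterMap_append]
    congr 1
    cases (δM (conf t).1 fun j' => (conf t).2.1 j' ((conf t).2.2.1 j')).2.2.2 with
    | none => rfl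
    | some x =>
      cases hx : h x with
      | none => simp [hx]
      | some y => simp [hx]
  · intro t i hi
    simp only at hi ⊢
    simp only [hlen t]
    simp
  · intro n
    obtain ⟨t, ht⟩ := h4 (C * n ^ 2 + 1)
    refine ⟨t, ?_⟩
    simp only
    rw [hlen2]
    by_contra hcon
    push Not at hcon
    have h6 := (hν (conf t).2.2.2.length).2
    have h7 : C * (ν (conf t).2.2.2.length + 1) ^ 2 ≤ C * n ^ 2 :=
      Nat.mul_le_mul_left _ (Nat.pow_le_pow_left hcon 2)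
    omega
  · intro n t hn ht j
    refine h5 (C * n ^ 2 + 1) t (Nat.succ_pos _) ?_ j
    intro t' ht'
    have h6 := ht t' ht'
    simp only at h6
    rw [hlen2] at h6
    have h7 := (hν (conf t').2.2.2.length).2
    have h8 : C * (ν (conf t').2.2.2.length + 1) ^ 2 ≤ C * n ^ 2 :=
      Nat.mul_le_mul_left _ (Nat.pow_le_pow_left h6 2)
    omega

theorem log_bound (C n : ℕ) (hn : 1 ≤ n) :
    Nat.log 2 (C * n ^ 2 + 1) + 1 ≤ (Nat.log 2 (C + 1) + 3) * (Nat.log 2 n + 1) := by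
  have h1 : C * n ^ 2 + 1 < 2 ^ (Nat.log 2 (C + 1) + 1 + 2 * (Nat.log 2 n + 1)) := by
    have h2 : C + 1 < 2 ^ (Nat.log 2 (C + 1) + 1) := Nat.lt_pow_succ_log_self one_lt_two _
    have h3 : n < 2 ^ (Nat.log 2 n + 1) := Nat.lt_pow_succ_log_self one_lt_two _
    have h4 : n ^ 2 < 2 ^ (2 * (Nat.log 2 n + 1)) := by
      rw [mul_comm, pow_mul]
      exact Nat.pow_lt_pow_left h3 two_ne_zero
    have h5 : 1 ≤ n ^ 2 := Nat.one_le_pow _ _ hn
    calc C * n ^ 2 + 1 ≤ (C + 1) * n ^ 2 := by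
          rw [Nat.add_mul, Nat.one_mul]
          omega
      _ < 2 ^ (Nat.log 2 (C + 1) + 1) * 2 ^ (2 * (Nat.log 2 n + 1)) :=
          Nat.mul_lt_mul_of_lt_of_lt h2 h4
      _ = _ := (pow_add _ _ _).symm
  have h2 := Nat.log_lt_of_lt_pow (by omega) h1
  have h3 : Nat.log 2 (C + 1) + 1 + 2 * (Nat.log 2 n + 1) ≤
      (Nat.log 2 (C + 1) + 3) * (Nat.log 2 n + 1) := by
    nlinarith [Nat.zero_le (Nat.log 2 (C + 1) * Nat.log 2 n)]
  omega

theorem gen_log (hν : ∀ N, ((List.range N).map v).filterMap h = (List.range (ν N)).map w ∧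
      N ≤ C * (ν N + 1) ^ 2) {c : ℕ} (hG : Generates v (fun n => c * (Nat.log 2 n + 1))) :
    Generates w (fun n => c * (Nat.log 2 (C + 1) + 3) * (Nat.log 2 n + 1)) := by
  refine (gen_coding hν hG).mono fun n => ?_
  rw [mul_assoc]
  apply Nat.mul_le_mul_left
  rcases Nat.eq_zero_or_pos n with h0 | h0
  · subst h0
    simp
  · exact log_bound C n h0

end Pool.Agent.V8H44.TS
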